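import Pool.Agent.W553.PM.Stm

/-! Project PM (problem MP_ec5bc9_gt): the part `S_rev`. -/

set_option autoImplicit false

namespace Pool.Agent.W29.PM

open Set Filter Topology Pool.Agent.W553.PM

variable {M : Set P} {d : P → P → ℝ}

/-! ### coordinates of a parabola -/

noncomputable def cx (a b c X : P) : ℝ := dt (X - a) c / dt b c
noncomputable def cy (a b c X : P) : ℝ := dt b (X - a) / dt b c
noncomputable def qq (a b c X : P) : ℝ := cx a b c X ^ 2 - cy a b c X

theorem rep {a b c : P} (h : dt b c ≠ 0) (X : P) :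
    X = a + cx a b c X • b + cy a b c X • c := by
  have h' : b.1 * c.2 - b.2 * c.1 ≠ 0 := h
  ext
  · simp only [cx, cy, dt, Prod.fst_add, Prod.fst_sub, Prod.snd_sub, Prod.smul_fst,
      smul_eq_mul]
    generalize hD : b.1 * c.2 - b.2 * c.1 = D at h' ⊢
    field_simp
    rw [← hD]
    ring
  · simp only [cx, cy, dt, Prod.snd_add, Prod.fst_sub, Prod.snd_sub, Prod.smul_snd,
      smul_eq_mul]
    generalize hD : b.1 * c.2 - b.2 * c.1 = D at h' ⊢
    field_simp
    rw [← hD]
    ring

theorem cx_eq {a b c : P} (h : dt b c ≠ 0) (x y : ℝ) : cx a b c (a + x • b + y • c) = x := by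
  have h' : b.1 * c.2 - b.2 * c.1 ≠ 0 := h
  simp only [cx, dt, Prod.fst_add, Prod.snd_add, Prod.fst_sub, Prod.snd_sub, Prod.smul_fst,
    Prod.smul_snd, smul_eq_mul]
  rw [div_eq_iff h']
  ring

theorem cy_eq {a b c : P} (h : dt b c ≠ 0) (x y : ℝ) : cy a b c (a + x • b + y • c) = y := by
  have h' : b.1 * c.2 - b.2 * c.1 ≠ 0 := h
  simp only [cy, dt, Prod.fst_add, Prod.snd_add, Prod.fst_sub, Prod.snd_sub, Prod.smul_fst,
    Prod.smul_snd, smul_eq_mul]
  rw [div_eq_iff h']
  ring

theorem par_iff {a b c : P} (h : dt b c ≠ 0) (X : P) : X ∈ Par a b c ↔ qq a b c X = 0 := by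
  constructor
  · rintro ⟨t, rfl⟩
    simp only [qq]
    rw [cx_eq h, cy_eq h]
    ring
  · intro hq
    refine ⟨cx a b c X, ?_⟩
    have h2 : cx a b c X ^ 2 = cy a b c X := by
      have : cx a b c X ^ 2 - cy a b c X = 0 := hq
      linarith
    simp only
    rw [h2]
    exact (rep h X).symm

theorem cx_seg (a b c A B : P) (s t : ℝ) (h : s + t = 1) :
    cx a b c (s • A + t • B) = s * cx a b c A + t * cx a b c B := by
  have hs : s = 1 - t := by linarith
  subst hs
  simp only [cx, dt, Prod.fst_add, Prod.snd_add, Prod.fst_sub, Prod.snd_sub, Prod.smul_fst,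
    Prod.smul_snd, smul_eq_mul]
  ring

theorem cy_seg (a b c A B : P) (s t : ℝ) (h : s + t = 1) :
    cy a b c (s • A + t • B) = s * cy a b c A + t * cy a b c B := by
  have hs : s = 1 - t := by linarith
  subst hs
  simp only [cy, dt, Prod.fst_add, Prod.snd_add, Prod.fst_sub, Prod.snd_sub, Prod.smul_fst,
    Prod.smul_snd, smul_eq_mul]
  ring

theorem qq_cont (a b c : P) : Continuous (qq a b c) := by
  unfold qq cx cy dt
  fun_prop

theorem qq_conv (a b c A B : P) (s t : ℝ) (hs : 0 ≤ s) (ht : 0 ≤ t) (h : s + t = 1) :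
    qq a b c (s • A + t • B) ≤ s * qq a b c A + t * qq a b c B := by
  simp only [qq]
  rw [cx_seg a b c A B s t h, cy_seg a b c A B s t h]
  have hs' : s = 1 - t := by linarith
  subst hs'
  nlinarith [mul_nonneg (mul_nonneg hs ht) (sq_nonneg (cx a b c A - cx a b c B))]

/-! ### continuity along segments -/

/-- a continuous function without zeros on a segment has the same sign at the ends -/
theorem sgn {g : P → ℝ} {S : Set P} (hg : ContinuousOn g S) {A B : P}
    (hS : ∀ t : ℝ, 0 ≤ t → t ≤ 1 → (1 - t) • A + t • B ∈ S)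
    (h0 : ∀ t : ℝ, 0 ≤ t → t ≤ 1 → g ((1 - t) • A + t • B) ≠ 0) (hA : g A < 0) : g B < 0 := by
  by_contra hB
  push Not at hB
  have hc : ContinuousOn (fun t : ℝ => g ((1 - t) • A + t • B)) (Icc 0 1) := by
    refine hg.comp (by fun_prop) ?_
    intro t ht
    exact hS t ht.1 ht.2
  have h1 := intermediate_value_Icc (zero_le_one) hc
  have h2 : (0 : ℝ) ∈ Icc (g ((1 - (0:ℝ)) • A + (0:ℝ) • B)) (g ((1 - (1:ℝ)) • A + (1:ℝ) • B)) := by
    simp only [sub_zero, one_smul, zero_smul, add_zero, sub_self, zero_add]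
    exact ⟨hA.le, hB⟩
  obtain ⟨t, ht, ht2⟩ := h1 h2
  exact h0 t ht.1 ht.2 ht2

/-! ### attained feet -/

def Foot (M : Set P) (d : P → P → ℝ) (O u X : P) : Prop :=
  ∃ O' ∈ M, O' ∈ Ln O u ∧ d X O' = hL M d O u X

theorem att (H : PMet M d) {O u : P} (hO : O ∈ M) :
    ∃ r > 0, ∀ X : P, dist X O < r → X ∈ M ∧ Foot M d O u X := by
  obtain ⟨R, hR, hRM⟩ : ∃ R > 0, Metric.closedBall O R ⊆ M := by
    obtain ⟨R, hR, hRM⟩ := Metric.isOpen_iff.1 H.opn O hO
    exact ⟨R / 2, by positivity, (Metric.closedBall_subset_ball (by linarith)).trans hRM⟩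
  have hsph : (Metric.sphere O R).Nonempty := by
    refine ⟨O + (R, 0), ?_⟩
    rw [mem_sphere_iff_norm, add_sub_cancel_left, Prod.norm_def]
    simp [abs_of_pos hR, hR.le]
  have hsM : Metric.sphere O R ⊆ M := Metric.sphere_subset_closedBall.trans hRM
  obtain ⟨W0, hW0, hmin⟩ := (isCompact_sphere O R).exists_isMinOn hsph
    ((H.cont_right hO).mono hsM)
  have hm : 0 < d O W0 := by
    refine H.pos hO (hsM hW0) ?_
    rintro rfl
    rw [Metric.mem_sphere, dist_self] at hW0
    linarith
  have hout : ∀ Y ∈ M, Y ∉ Metric.closedBall O R → d O W0 ≤ d O Y := by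
    intro Y hY hYR
    rw [Metric.mem_closedBall, not_le] at hYR
    have hYO : 0 < dist Y O := hR.trans hYR
    set t : ℝ := R / dist Y O with ht
    have ht0 : 0 < t := div_pos hR hYO
    have ht1 : t < 1 := by rw [ht, div_lt_one hYO]; exact hYR
    have hW : O + t • (Y - O) ∈ Metric.sphere O R := by
      rw [mem_sphere_iff_norm, add_sub_cancel_left, norm_smul, Real.norm_eq_abs,
        abs_of_pos ht0, ← dist_eq_norm, ht, div_mul_cancel₀ _ hYO.ne']
    have hseg : O + t • (Y - O) ∈ segment ℝ O Y := by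
      refine ⟨1 - t, t, by linarith, ht0.le, by ring, ?_⟩
      module
    have h1 := H.seg O hO _ (hsM hW) Y hY hseg
    have h2 := hmin hW
    simp only [mem_ofPred_eq] at h2
    have h3 := H.nonneg (hsM hW) hY
    linarith
  have hsmall : ∀ᶠ X in 𝓝 O, X ∈ M ∧ d O X < d O W0 / 3 := by
    have h1 : ∀ᶠ X in nhdsWithin O M, d O X < d O W0 / 3 := by
      exact (H.tendsto hO).eventually_lt_const (by positivity)
    rw [H.opn.nhdsWithin_eq hO] at h1
    filter_upwards [H.opn.mem_nhds hO, h1] with X h2 h3 using ⟨h2, h3⟩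
  obtain ⟨r, hr, hr2⟩ := Metric.eventually_nhds_iff.1 hsmall
  refine ⟨r, hr, fun X hX => ?_⟩
  obtain ⟨hXM, hXd⟩ := hr2 hX
  refine ⟨hXM, ?_⟩
  have hK : IsCompact (Ln O u ∩ Metric.closedBall O R) :=
    (isCompact_closedBall O R).inter_left (Ln_closed O u)
  have hKn : (Ln O u ∩ Metric.closedBall O R).Nonempty :=
    ⟨O, self_mem_Ln O u, Metric.mem_closedBall_self hR.le⟩
  obtain ⟨O', hO', hmin'⟩ := hK.exists_isMinOn hKn
    ((H.cont_right hXM).mono (inter_subset_right.trans hRM))
  refine ⟨O', hRM hO'.2, hO'.1, le_antisymm ?_ (hL_le H hXM (hRM hO'.2) hO'.1)⟩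
  refine le_hL hO fun t ht => ?_
  by_cases hb : O + t • u ∈ Metric.closedBall O R
  · exact hmin' ⟨⟨t, rfl⟩, hb⟩
  · have h1 := hout _ ht hb
    have h2 := hmin' ⟨self_mem_Ln O u, Metric.mem_closedBall_self hR.le⟩
    simp only [mem_ofPred_eq] at h2
    have h3 := H.tri O hO X hXM _ ht
    rw [H.symm X hXM O hO] at h2
    linarith

/-! ### behaviour along segments from `F` -/

theorem before (H : PMet M d) {O u F X X' : P} (hF : F ∈ M) (hFL : F ∉ Ln O u)
    (hX : X ∈ M) (hfX : d X F ≤ hL M d O u X) {l : ℝ} (hl0 : 0 < l) (hl1 : l ≤ 1)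
    (hX' : X' = X + l • (F - X)) (hX'M : X' ∈ M) (hfoot : Foot M d O u X') :
    d X' F < hL M d O u X' := by
  obtain ⟨O', hO'M, hO'L, hO'⟩ := hfoot
  by_cases hXF : X = F
  · -- X = F impossible to be relevant but fine
    subst hXF
    rw [sub_self, smul_zero, add_zero] at hX'
    rw [hX', H.self hF]
    exact lt_of_le_of_ne (by rw [← hX', ← hO']; exact H.nonneg hX'M hO'M) (by
      rw [← hX', ← hO']
      intro h0
      have h1 := (H.zero _ hX'M _ hO'M).1 h0.symm
      exact hFL (by rw [← hX', h1]; exact hO'L))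
  have hFseg : X' ∈ segment ℝ X F := by
    refine ⟨1 - l, l, by linarith, hl0.le, by ring, ?_⟩
    rw [hX']; module
  have h1 := H.seg X hX X' hX'M F hF hFseg
  have h2 := hL_le H hX hO'M hO'L
  have h3 := H.tri X hX X' hX'M O' hO'M
  by_contra hcon
  push Not at hcon
  have e1 : d X O' = d X X' + d X' O' := by linarith
  have e2 : d X' F = d X' O' := by linarith
  have hXX' : X ≠ X' := by
    intro h
    rw [hX'] at h
    have h4 : l • (F - X) = 0 := by
      have : X + l • (F - X) = X + 0 := by rw [add_zero]; exact h.symm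
      exact add_left_cancel this
    rcases smul_eq_zero.1 h4 with h5 | h5
    · linarith
    · exact hXF (sub_eq_zero.1 h5).symm
  have hdXX' : 0 < d X X' := H.pos hX hX'M hXX'
  have hFX' : F ≠ O' := fun h => hFL (h ▸ hO'L)
  have hcol : dt (X' - X) (O' - X) = 0 := by
    by_contra hne
    have := H.strict X hX X' hX'M O' hO'M hne
    linarith
  -- O' = X' + s (F - X)
  obtain ⟨s, hs⟩ : ∃ s : ℝ, O' = X + s • (F - X) := by
    have hne : F - X ≠ 0 := fun h => hXF (sub_eq_zero.1 h).symm
    rw [hX'] at hcol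
    have hc2 : dt (F - X) (O' - X) = 0 := by
      have : dt (X + l • (F - X) - X) (O' - X) = l * dt (F - X) (O' - X) := by
        simp only [dt, Prod.fst_add, Prod.snd_add, Prod.fst_sub, Prod.snd_sub, Prod.smul_fst,
          Prod.smul_snd, smul_eq_mul]
        ring
      rw [this] at hcol
      exact (mul_eq_zero.1 hcol).resolve_left hl0.ne'
    have hN : (F - X).1 ^ 2 + (F - X).2 ^ 2 ≠ 0 := by
      intro h0
      apply hne
      have ha : (F - X).1 = 0 := by nlinarith [sq_nonneg (F - X).1, sq_nonneg (F - X).2]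
      have hb : (F - X).2 = 0 := by nlinarith [sq_nonneg (F - X).1, sq_nonneg (F - X).2]
      exact Prod.ext ha hb
    refine ⟨ip (F - X) (O' - X) / ((F - X).1 ^ 2 + (F - X).2 ^ 2), ?_⟩
    have hc3 : (F - X).1 * (O' - X).2 = (F - X).2 * (O' - X).1 := by
      have : (F - X).1 * (O' - X).2 - (F - X).2 * (O' - X).1 = 0 := hc2
      linarith
    have key : O' - X = (ip (F - X) (O' - X) / ((F - X).1 ^ 2 + (F - X).2 ^ 2)) • (F - X) := by
      ext
      · rw [Prod.smul_fst, smul_eq_mul, div_mul_eq_mul_div, eq_div_iff hN]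
        unfold ip
        linear_combination (F - X).2 * (-hc3)
      · rw [Prod.smul_snd, smul_eq_mul, div_mul_eq_mul_div, eq_div_iff hN]
        unfold ip
        linear_combination (F - X).1 * hc3
    rw [← key]; abel
  -- positions on the line: X at 0, X' at l, F at 1, O' at s
  rcases lt_trichotomy s l with hsl | hsl | hsl
  · rcases le_or_gt 0 s with hs0 | hs0
    · -- O' between X and X'
      have hseg : O' ∈ segment ℝ X X' := by
        refine ⟨1 - s / l, s / l, ?_, by positivity, by ring, ?_⟩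
        · rw [sub_nonneg, div_le_one hl0]; exact hsl.le
        · rw [hs, hX', smul_add, smul_smul, div_mul_cancel₀ _ hl0.ne']
          module
      have h5 := H.seg X hX O' hO'M X' hX'M hseg
      rw [H.symm O' hO'M X' hX'M] at h5
      have h6 : d X' O' = 0 := by linarith [H.nonneg hX'M hO'M]
      have h7 := (H.zero _ hX'M _ hO'M).1 h6
      have h8 : d X' F = 0 := by linarith
      have h9 := (H.zero _ hX'M _ hF).1 h8
      exact hFX' (h9.symm.trans h7)
    · -- X between O' and X'
      have hseg : X ∈ segment ℝ O' X' := by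
        have hd : 0 < l - s := by linarith
        refine ⟨l / (l - s), -s / (l - s), by positivity, div_nonneg (by linarith) hd.le, ?_, ?_⟩
        · field_simp; ring
        · have : ∀ Y : P, Y = (1 : ℝ) • Y := fun Y => (one_smul ℝ Y).symm
          have h10 : (l / (l - s)) • (X + s • (F - X)) + (-s / (l - s)) • (X + l • (F - X))
            = ((l + -s) / (l - s)) • X + ((l * s + (-s) * l) / (l - s)) • (F - X) := by
            rw [smul_add, smul_add, smul_smul, smul_smul]
            module
          rw [hs, hX', h10]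
          have : l + -s = l - s := by ring
          rw [this, div_self hd.ne']
          have : l * s + -s * l = 0 := by ring
          rw [this, zero_div]
          simp
      have h5 := H.seg O' hO'M X hX X' hX'M hseg
      rw [H.symm O' hO'M X' hX'M, H.symm O' hO'M X hX] at h5
      linarith
  · -- O' = X'
    have h7 : X' = O' := by rw [hX', hs, hsl]
    have h8 : d X' F = 0 := by rw [e2, h7]; exact H.self hO'M
    have h9 := (H.zero _ hX'M _ hF).1 h8
    exact hFX' (h9.symm.trans h7)
  · -- both on the same side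
    rcases lt_trichotomy s 1 with hs1 | hs1 | hs1
    · have hseg : O' ∈ segment ℝ X' F := by
        have hd : 0 < 1 - l := by linarith
        refine ⟨(1 - s) / (1 - l), (s - l) / (1 - l), div_nonneg (by linarith) hd.le,
          div_nonneg (by linarith) hd.le, by field_simp; ring, ?_⟩
        have h10 : ((1 - s) / (1 - l)) • (X + l • (F - X)) + ((s - l) / (1 - l)) • F
            = (((1 - s) * (1 - l)) / (1 - l)) • X
              + (((1 - s) * l + (s - l)) / (1 - l)) • F := by
          module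
        rw [hs, hX', h10, mul_div_cancel_right₀ _ hd.ne']
        have h11 : ((1 - s) * l + (s - l)) / (1 - l) = s := by field_simp; ring
        rw [h11]
        module
      have h5 := H.seg X' hX'M O' hO'M F hF hseg
      have h6 : 0 < d O' F := H.pos hO'M hF hFX'.symm
      linarith
    · exact hFX' (by rw [hs, hs1]; simp)
    · have hseg : F ∈ segment ℝ X' O' := by
        have hd : 0 < s - l := by linarith
        refine ⟨(s - 1) / (s - l), (1 - l) / (s - l), div_nonneg (by linarith) hd.le,
          div_nonneg (by linarith) hd.le, by field_simp; ring, ?_⟩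
        have h10 : ((s - 1) / (s - l)) • (X + l • (F - X))
              + ((1 - l) / (s - l)) • (X + s • (F - X))
            = (((s - 1) + (1 - l)) / (s - l)) • X
              + (((s - 1) * l + (1 - l) * s) / (s - l)) • (F - X) := by
          module
        rw [hs, hX', h10]
        have h11 : ((s - 1) + (1 - l)) / (s - l) = 1 := by field_simp; ring
        have h12 : ((s - 1) * l + (1 - l) * s) / (s - l) = 1 := by field_simp; ring
        rw [h11, h12]
        module
      have h5 := H.seg X' hX'M F hF O' hO'M hseg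
      have h6 : 0 < d F O' := H.pos hF hO'M hFX'
      linarith

/-! ### the tangent argument -/

theorem tang (H : PMet M d) {O u F Z a b c : P} (hO : O ∈ M) (hbc : dt b c ≠ 0) {r : ℝ}
    (hr : ∀ X : P, dist X O < r → X ∈ M ∧ Foot M d O u X)
    (hFr : dist F O < r) (hZr : dist Z O < r) (hFL : F ∉ Ln O u)
    (hcon : {X | X ∈ M ∧ d X F = hL M d O u X} = M ∩ Par a b c)
    (hqF : 0 < qq a b c F) (hqZ : 0 < qq a b c Z) : d Z F < hL M d O u Z := by
  have hF := (hr F hFr).1
  have hZ := (hr Z hZr).1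
  set g : P → ℝ := fun X => d X F - hL M d O u X with hg
  have gc : ContinuousOn g M := (H.cont_left hF).sub (hL_cont H hO)
  have gz : ∀ X ∈ M, (g X = 0 ↔ qq a b c X = 0) := by
    intro X hX
    rw [← par_iff hbc]
    constructor
    · intro h
      have h1 : X ∈ {X | X ∈ M ∧ d X F = hL M d O u X} := ⟨hX, by
        have : d X F - hL M d O u X = 0 := h
        linarith⟩
      rw [hcon] at h1
      exact h1.2
    · intro h
      have h1 : X ∈ M ∩ Par a b c := ⟨hX, h⟩
      rw [← hcon] at h1
      have := h1.2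
      simp only [hg]
      linarith
  have gF : g F < 0 := by
    simp only [hg]
    rw [H.self hF]
    have := hL_pos H hO hF hFL
    linarith
  by_contra hcontra
  have gZ : 0 < g Z := by
    have h1 : g Z ≠ 0 := fun h => hqZ.ne' ((gz Z hZ).1 h)
    have h2 : 0 ≤ g Z := by
      simp only [hg]
      linarith
    exact lt_of_le_of_ne h2 h1.symm
  have hseg : ∀ t : ℝ, 0 ≤ t → t ≤ 1 → dist ((1 - t) • F + t • Z) O < r := by
    intro t ht0 ht1
    exact (convex_ball O r) hFr hZr (by linarith) ht0 (by ring)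
  have hsegM : ∀ t : ℝ, 0 ≤ t → t ≤ 1 → (1 - t) • F + t • Z ∈ M := fun t h0 h1 =>
    (hr _ (hseg t h0 h1)).1
  obtain ⟨t0, ht0, ht1, hgt⟩ : ∃ t0 : ℝ, 0 ≤ t0 ∧ t0 ≤ 1 ∧ g ((1 - t0) • F + t0 • Z) = 0 := by
    by_contra hno
    push Not at hno
    have := sgn gc hsegM hno gF
    linarith
  have h0ne : t0 ≠ 0 := by
    rintro rfl
    simp only [sub_zero, one_smul, zero_smul, add_zero] at hgt
    linarith
  have h1ne : t0 ≠ 1 := by
    rintro rfl
    simp only [sub_self, one_smul, zero_smul, zero_add] at hgt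
    linarith
  have ht0' : 0 < t0 := lt_of_le_of_ne ht0 h0ne.symm
  have ht1' : t0 < 1 := lt_of_le_of_ne ht1 h1ne
  -- uniqueness of the zero
  have huniq : ∀ t : ℝ, 0 ≤ t → t ≤ 1 → qq a b c ((1 - t) • F + t • Z) = 0 → t = t0 := by
    intro t h0 h1 hq
    have hgt' := (gz _ (hsegM t h0 h1)).2 hq
    by_contra hne
    rcases lt_or_gt_of_ne hne with hlt | hgt2
    · have h3 := before H (X := (1 - t0) • F + t0 • Z) (X' := (1 - t) • F + t • Z)
        (l := (t0 - t) / t0) hF hFL (hsegM t0 ht0 ht1) (by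
          have : d ((1 - t0) • F + t0 • Z) F - hL M d O u ((1 - t0) • F + t0 • Z) = 0 := hgt
          linarith) (div_pos (by linarith) ht0') (by rw [div_le_one ht0']; linarith) (by
          have e1 : F - ((1 - t0) • F + t0 • Z) = t0 • (F - Z) := by module
          rw [e1, smul_smul, div_mul_cancel₀ _ ht0'.ne']
          module) (hsegM t h0 h1) (hr _ (hseg t h0 h1)).2
      have : d ((1 - t) • F + t • Z) F - hL M d O u ((1 - t) • F + t • Z) = 0 := hgt'
      linarith
    · have htp : 0 < t := by linarith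
      have h3 := before H (X := (1 - t) • F + t • Z) (X' := (1 - t0) • F + t0 • Z)
        (l := (t - t0) / t) hF hFL (hsegM t h0 h1) (by
          have : d ((1 - t) • F + t • Z) F - hL M d O u ((1 - t) • F + t • Z) = 0 := hgt'
          linarith) (div_pos (by linarith) htp) (by rw [div_le_one htp]; linarith) (by
          have e1 : F - ((1 - t) • F + t • Z) = t • (F - Z) := by module
          rw [e1, smul_smul, div_mul_cancel₀ _ htp.ne']
          module) (hsegM t0 ht0 ht1) (hr _ (hseg t0 ht0 ht1)).2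
      have : d ((1 - t0) • F + t0 • Z) F - hL M d O u ((1 - t0) • F + t0 • Z) = 0 := hgt
      linarith
  have hq0 : qq a b c ((1 - t0) • F + t0 • Z) = 0 := (gz _ (hsegM t0 ht0 ht1)).1 hgt
  -- coordinates
  have hqt : ∀ t : ℝ, qq a b c ((1 - t) • F + t • Z) =
      ((1 - t) * cx a b c F + t * cx a b c Z) ^ 2 - ((1 - t) * cy a b c F + t * cy a b c Z) := by
    intro t
    rw [qq, cx_seg a b c F Z (1 - t) t (by ring), cy_seg a b c F Z (1 - t) t (by ring)]
  have hqF' : 0 < cx a b c F ^ 2 - cy a b c F := hqF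
  have hqZ' : 0 < cx a b c Z ^ 2 - cy a b c Z := hqZ
  generalize hxF : cx a b c F = xF at *
  generalize hyF : cy a b c F = yF at *
  generalize hxZ : cx a b c Z = xZ at *
  generalize hyZ : cy a b c Z = yZ at *
  have hq0' : ((1 - t0) * xF + t0 * xZ) ^ 2 - ((1 - t0) * yF + t0 * yZ) = 0 := by
    rw [← hqt t0]; exact hq0
  obtain ⟨x0, hx0⟩ : ∃ x0, x0 = (1 - t0) * xF + t0 * xZ := ⟨_, rfl⟩
  obtain ⟨α, hα⟩ : ∃ α, α = xZ - xF := ⟨_, rfl⟩
  obtain ⟨κ, hκ⟩ : ∃ κ, κ = 2 * x0 * α - (yZ - yF) := ⟨_, rfl⟩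
  have hexp : ∀ t : ℝ, qq a b c ((1 - t) • F + t • Z) = (t - t0) * κ + α ^ 2 * (t - t0) ^ 2 := by
    intro t
    rw [hqt t, hκ, hx0, hα]
    linear_combination hq0'
  have e0 : 0 < (0 - t0) * κ + α ^ 2 * (0 - t0) ^ 2 := by
    rw [← hexp 0, hqt 0]; simpa using hqF'
  have e1 : 0 < (1 - t0) * κ + α ^ 2 * (1 - t0) ^ 2 := by
    rw [← hexp 1, hqt 1]; simpa using hqZ'
  have e0' : κ < α ^ 2 * t0 := by
    have : 0 < t0 * (α ^ 2 * t0 - κ) := by nlinarith
    have := (pos_iff_pos_of_mul_pos this).1 ht0'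
    linarith
  have e1' : 0 < κ + α ^ 2 * (1 - t0) := by
    have : 0 < (1 - t0) * (κ + α ^ 2 * (1 - t0)) := by nlinarith
    exact (pos_iff_pos_of_mul_pos this).1 (by linarith)
  have hα0 : α ≠ 0 := by
    intro h
    rw [h] at e0' e1'
    simp at e0' e1'
    linarith
  have hα2 : 0 < α ^ 2 := by positivity
  have hκ0 : κ = 0 := by
    have h2 := huniq (t0 - κ / α ^ 2) (by
      rw [sub_nonneg, div_le_iff₀ hα2]; linarith) (by
      have : -(1 - t0) ≤ κ / α ^ 2 := by
        rw [le_div_iff₀ hα2]; linarith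
      linarith) (by
      rw [hexp]
      field_simp
      ring)
    have h3 : κ / α ^ 2 = 0 := by linarith
    rcases div_eq_zero_iff.1 h3 with h4 | h4
    · exact h4
    · exact absurd h4 hα2.ne'
  -- the detour
  obtain ⟨ε, hε, hεM⟩ : ∃ ε : ℝ, 0 < ε ∧ ((1 - t0) • F + t0 • Z) - ε • c ∈ M := by
    have h1 : Tendsto (fun ε : ℝ => ((1 - t0) • F + t0 • Z) - ε • c) (𝓝[>] 0)
        (𝓝 ((1 - t0) • F + t0 • Z)) := by
      have : Continuous (fun ε : ℝ => ((1 - t0) • F + t0 • Z) - ε • c) := by fun_prop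
      have h2 := this.tendsto 0
      simp only [zero_smul, sub_zero] at h2
      exact h2.mono_left nhdsWithin_le_nhds
    have h2 := h1.eventually (H.opn.mem_nhds (hsegM t0 ht0 ht1))
    obtain ⟨ε, h3, h4⟩ := (h2.and self_mem_nhdsWithin).exists
    exact ⟨ε, h4, h3⟩
  set W : P := ((1 - t0) • F + t0 • Z) - ε • c with hW
  have hcxW : cx a b c W = x0 := by
    have h1 : cx a b c W = cx a b c ((1 - t0) • F + t0 • Z) := by
      rw [hW]
      simp only [cx, dt, Prod.fst_sub, Prod.snd_sub, Prod.smul_fst, Prod.smul_snd, smul_eq_mul]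
      ring
    rw [h1, cx_seg a b c F Z (1 - t0) t0 (by ring), hxF, hxZ, hx0]
  have hcyW : cy a b c W = x0 ^ 2 - ε := by
    have h1 : cy a b c W = cy a b c ((1 - t0) • F + t0 • Z) - ε := by
      rw [hW]
      have h' : b.1 * c.2 - b.2 * c.1 ≠ 0 := hbc
      simp only [cy, dt, Prod.fst_sub, Prod.snd_sub, Prod.smul_fst, Prod.smul_snd, smul_eq_mul]
      rw [div_sub' h', div_left_inj' h']
      ring
    rw [h1, cy_seg a b c F Z (1 - t0) t0 (by ring), hyF, hyZ, hx0]
    linarith
  have hyF2 : yF = xF ^ 2 - α ^ 2 * t0 ^ 2 := by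
    have := hexp 0
    rw [hqt 0, hκ0] at this
    linear_combination -this
  have hyZ2 : yZ = xZ ^ 2 - α ^ 2 * (1 - t0) ^ 2 := by
    have := hexp 1
    rw [hqt 1, hκ0] at this
    linear_combination -this
  have hxF2 : xF = x0 - t0 * α := by rw [hx0, hα]; ring
  have hxZ2 : xZ = x0 + (1 - t0) * α := by rw [hx0, hα]; ring
  have gW : g W < 0 := by
    refine sgn gc (A := F) (B := W) ?_ ?_ gF
    · intro t h0 h1
      exact H.cvx hF hεM (by linarith) h0 (by ring)
    · intro t h0 h1 hgz
      have hM' : (1 - t) • F + t • W ∈ M := H.cvx hF hεM (by linarith) h0 (by ring)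
      have h2 := (gz _ hM').1 hgz
      rw [qq, cx_seg a b c F W (1 - t) t (by ring), cy_seg a b c F W (1 - t) t (by ring),
        hxF, hyF, hcxW, hcyW, hyF2, hxF2] at h2
      have h3 : (1 - t) ^ 2 * (t0 * α) ^ 2 + t * ε = 0 := by linear_combination h2
      have h4 : 0 ≤ t * ε := by positivity
      have h5 : 0 ≤ (1 - t) ^ 2 * (t0 * α) ^ 2 := by positivity
      have h6 : t * ε = 0 := by linarith
      have h7 : t = 0 := (mul_eq_zero.1 h6).resolve_right hε.ne'
      rw [h7] at h3
      have h8 : 0 < (t0 * α) ^ 2 := by positivity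
      linarith
  have gZ' : g Z < 0 := by
    refine sgn gc (A := W) (B := Z) ?_ ?_ gW
    · intro t h0 h1
      exact H.cvx hεM hZ (by linarith) h0 (by ring)
    · intro t h0 h1 hgz
      have hM' : (1 - t) • W + t • Z ∈ M := H.cvx hεM hZ (by linarith) h0 (by ring)
      have h2 := (gz _ hM').1 hgz
      rw [qq, cx_seg a b c W Z (1 - t) t (by ring), cy_seg a b c W Z (1 - t) t (by ring),
        hxZ, hyZ, hcxW, hcyW, hyZ2, hxZ2] at h2
      have h3 : t ^ 2 * ((1 - t0) * α) ^ 2 + (1 - t) * ε = 0 := by linear_combination h2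
      have h4 : 0 ≤ (1 - t) * ε := mul_nonneg (by linarith) hε.le
      have h5 : 0 ≤ t ^ 2 * ((1 - t0) * α) ^ 2 := by positivity
      have h6 : (1 - t) * ε = 0 := by linarith
      have h7 : 1 - t = 0 := (mul_eq_zero.1 h6).resolve_right hε.ne'
      have h7' : t = 1 := by linarith
      rw [h7'] at h3
      have h8 : 0 < ((1 - t0) * α) ^ 2 := by
        have : (1 - t0) * α ≠ 0 := mul_ne_zero (by linarith) hα0
        positivity
      linarith
  linarith

/-! ### the main statement -/

theorem not_mem_Ln {O u F : P} (h : 0 < dt u (F - O)) : F ∉ Ln O u := by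
  rintro ⟨t, rfl⟩
  have : dt u (O + t • u - O) = 0 := by
    simp only [dt, Prod.fst_add, Prod.snd_add, Prod.fst_sub, Prod.snd_sub, Prod.smul_fst,
      Prod.smul_snd, smul_eq_mul]
    ring
  linarith

theorem T_rev : S_rev := by
  intro M d H O hO u hu
  obtain ⟨r, hr, hatt⟩ := att H (u := u) hO
  by_cases hs : O ∈ closure {F : P | F ∈ M ∧ 0 < dt u (F - O) ∧ dist F O < r ∧
      ∃ a b c : P, dt b c ≠ 0 ∧ {X | X ∈ M ∧ d X F = hL M d O u X} = M ∩ Par a b c ∧
        0 < qq a b c F}
  · exfalso
    obtain ⟨s, hsd⟩ : ∃ s : Set P, s = {F : P | F ∈ M ∧ 0 < dt u (F - O) ∧ dist F O < r ∧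
      ∃ a b c : P, dt b c ≠ 0 ∧ {X | X ∈ M ∧ d X F = hL M d O u X} = M ∩ Par a b c ∧
        0 < qq a b c F} := ⟨_, rfl⟩
    rw [← hsd] at hs
    have hne : (𝓝[s] O).NeBot := mem_closure_iff_nhdsWithin_neBot.1 hs
    have step3 : ∀ Z : P, dist Z O < r → 0 < dt u (Z - O) → d Z O ≤ hL M d O u Z := by
      intro Z hZr hZu
      have hZ := (hatt Z hZr).1
      have hlim : Tendsto (fun F => d Z F) (𝓝[s] O) (𝓝 (d Z O)) := by
        have h1 := (H.cont_right hZ) O hO
        refine h1.mono_left (nhdsWithin_mono O ?_)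
        rw [hsd]
        exact fun F hF => hF.1
      refine le_of_tendsto hlim ?_
      have hβ : Tendsto (fun F : P => dt u (F - O) / dt u (Z - O)) (𝓝[s] O) (𝓝 0) := by
        have hc : Continuous (fun F : P => dt u (F - O) / dt u (Z - O)) := by
          unfold dt; fun_prop
        have h1 := hc.tendsto O
        simp only [sub_self] at h1
        have h2 : dt u 0 / dt u (Z - O) = 0 := by simp [dt]
        rw [h2] at h1
        exact h1.mono_left nhdsWithin_le_nhds
      have hα : Tendsto (fun F : P => dt (F - O) (Z - O) / dt u (Z - O)) (𝓝[s] O) (𝓝 0) := by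
        have hc : Continuous (fun F : P => dt (F - O) (Z - O) / dt u (Z - O)) := by
          unfold dt; fun_prop
        have h1 := hc.tendsto O
        simp only [sub_self] at h1
        have h2 : dt 0 (Z - O) / dt u (Z - O) = 0 := by simp [dt]
        rw [h2] at h1
        exact h1.mono_left nhdsWithin_le_nhds
      have hG : Tendsto (fun F : P => O + ((dt (F - O) (Z - O) / dt u (Z - O)) /
          (1 - dt u (F - O) / dt u (Z - O))) • u) (𝓝[s] O) (𝓝 O) := by
        have h1 := (hα.div (tendsto_const_nhds.sub hβ) (by norm_num : (1 : ℝ) - 0 ≠ 0))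
        have h2 := (tendsto_const_nhds (x := O)).add (h1.smul_const u)
        simpa using h2
      have hGM := hG.eventually (H.opn.mem_nhds hO)
      have hβ1 := hβ.eventually_lt_const (show (0 : ℝ) < 1 by norm_num)
      filter_upwards [self_mem_nhdsWithin, hGM, hβ1] with F hFs hFG hFβ
      rw [hsd] at hFs
      obtain ⟨hF, hFu, hFr, a, b, c, hbc, hcon, hqF⟩ := hFs
      have hFL := not_mem_Ln hFu
      have hpar : ∀ X ∈ M, qq a b c X = 0 → d X F = hL M d O u X := by
        intro X hX hq
        have h1 : X ∈ M ∩ Par a b c := ⟨hX, (par_iff hbc X).2 hq⟩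
        rw [← hcon] at h1
        exact h1.2
      have hLne : ∀ X ∈ M, X ∈ Ln O u → qq a b c X ≠ 0 := by
        intro X hX hXL hq
        have h1 := hpar X hX hq
        rw [hL_zero H hO hX hXL] at h1
        have h2 := (H.zero X hX F hF).1 h1
        exact hFL (h2 ▸ hXL)
      have hqO : qq a b c O < 0 := by
        rcases lt_trichotomy (qq a b c O) 0 with h | h | h
        · exact h
        · exact absurd h (hLne O hO (self_mem_Ln O u))
        · exfalso
          have h1 := tang H hO hbc hatt hFr (by simpa using hr) hFL hcon hqF h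
          rw [hL_zero H hO hO (self_mem_Ln O u)] at h1
          have := H.nonneg hO hF
          linarith
      rcases lt_trichotomy (qq a b c Z) 0 with h | h | h
      · exfalso
        set G : P := O + ((dt (F - O) (Z - O) / dt u (Z - O)) /
          (1 - dt u (F - O) / dt u (Z - O))) • u with hGdef
        have hGM' : G ∈ M := hFG
        have hGL : G ∈ Ln O u := ⟨_, rfl⟩
        have hqG : qq a b c G < 0 := by
          refine sgn (qq_cont a b c).continuousOn (S := univ) (fun _ _ _ => mem_univ _) ?_ hqO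
          intro t h0 h1
          refine hLne _ (H.cvx hO hGM' (by linarith) h0 (by ring)) ?_
          rw [hGdef]
          refine ⟨t * ((dt (F - O) (Z - O) / dt u (Z - O)) /
            (1 - dt u (F - O) / dt u (Z - O))), ?_⟩
          module
        obtain ⟨β, hβd⟩ : ∃ β, β = dt u (F - O) / dt u (Z - O) := ⟨_, rfl⟩
        have hβ0 : 0 < β := by rw [hβd]; exact div_pos hFu hZu
        have hβ1 : β < 1 := by rw [hβd]; exact hFβ
        have hFeq : F = (1 - β) • G + β • Z := by
          have h1 : (1 - β) • G = (1 - β) • O + (dt (F - O) (Z - O) / dt u (Z - O)) • u := by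
            rw [hGdef, smul_add, smul_smul, ← hβd, mul_div_cancel₀ _ (by linarith : 1 - β ≠ 0)]
          rw [h1, hβd]
          have h' : u.1 * (Z.2 - O.2) - u.2 * (Z.1 - O.1) ≠ 0 := hZu.ne'
          ext
          · simp only [dt, Prod.fst_add, Prod.fst_sub, Prod.snd_sub, Prod.smul_fst, smul_eq_mul]
            generalize hD : u.1 * (Z.2 - O.2) - u.2 * (Z.1 - O.1) = D at h' ⊢
            field_simp
            rw [← hD]
            ring
          · simp only [dt, Prod.snd_add, Prod.fst_sub, Prod.snd_sub, Prod.smul_snd, smul_eq_mul]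
            generalize hD : u.1 * (Z.2 - O.2) - u.2 * (Z.1 - O.1) = D at h' ⊢
            field_simp
            rw [← hD]
            ring
        have h3 := qq_conv a b c G Z (1 - β) β (by linarith) hβ0.le (by ring)
        rw [← hFeq] at h3
        nlinarith
      · exact (hpar Z hZ h).le
      · exact (tang H hO hbc hatt hFr hZr hFL hcon hqF h).le
    -- step 4
    obtain ⟨e, he, her⟩ : ∃ e : ℝ, 0 < e ∧ dist (O + e • u) O < r := by
      have h1 : Tendsto (fun e : ℝ => dist (O + e • u) O) (𝓝[>] 0) (𝓝 0) := by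
        have hc : Continuous (fun e : ℝ => dist (O + e • u) O) := by fun_prop
        have h2 := hc.tendsto 0
        simp only [zero_smul, add_zero, dist_self] at h2
        exact h2.mono_left nhdsWithin_le_nhds
      obtain ⟨e, h3, h4⟩ := ((h1.eventually_lt_const hr).and self_mem_nhdsWithin).exists
      exact ⟨e, h4, h3⟩
    have hE := (hatt _ her).1
    have hlimZ : Tendsto (fun δ : ℝ => O + e • u + δ • ((-u.2, u.1) : P)) (𝓝[>] 0)
        (𝓝 (O + e • u)) := by
      have hc : Continuous (fun δ : ℝ => O + e • u + δ • ((-u.2, u.1) : P)) := by fun_prop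
      have h2 := hc.tendsto 0
      simp only [zero_smul, add_zero] at h2
      exact h2.mono_left nhdsWithin_le_nhds
    have hlimZ' : Tendsto (fun δ : ℝ => O + e • u + δ • ((-u.2, u.1) : P)) (𝓝[>] 0)
        (𝓝[M] (O + e • u)) :=
      tendsto_nhdsWithin_iff.2 ⟨hlimZ, hlimZ.eventually (H.opn.mem_nhds hE)⟩
    have hl1 := ((H.cont_left hO) _ hE).tendsto.comp hlimZ'
    have hl2 := ((hL_cont H (u := u) hO) _ hE).tendsto.comp hlimZ'
    have hle : d (O + e • u) O ≤ hL M d O u (O + e • u) := by
      refine le_of_tendsto_of_tendsto hl1 hl2 ?_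
      have hev : ∀ᶠ Z in 𝓝 (O + e • u), dist Z O < r :=
        (continuous_id.dist continuous_const).continuousAt.eventually_lt_const her
      filter_upwards [hlimZ.eventually hev, self_mem_nhdsWithin] with δ h1 h2
      refine step3 _ h1 ?_
      have hδ : (0 : ℝ) < δ := h2
      have hu2 : 0 < u.1 ^ 2 + u.2 ^ 2 := by
        rcases eq_or_ne u.1 0 with h3 | h3
        · have h4 : u.2 ≠ 0 := fun h4 => hu (Prod.ext h3 h4)
          positivity
        · positivity
      have : dt u (O + e • u + δ • ((-u.2, u.1) : P) - O) = δ * (u.1 ^ 2 + u.2 ^ 2) := by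
        simp only [dt, Prod.fst_add, Prod.snd_add, Prod.fst_sub, Prod.snd_sub, Prod.smul_fst,
          Prod.smul_snd, smul_eq_mul]
        ring
      rw [this]
      positivity
    rw [hL_zero H hO hE ⟨e, rfl⟩] at hle
    have hne' : O + e • u ≠ O := by
      intro h
      have h1 : e • u = 0 := by
        have : O + e • u = O + 0 := by rw [add_zero]; exact h
        exact add_left_cancel this
      rcases smul_eq_zero.1 h1 with h2 | h2
      · linarith
      · exact hu h2
    have := H.pos hE hO hne'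
    linarith
  · rw [Metric.mem_closure_iff] at hs
    push Not at hs
    obtain ⟨ρ, hρ, hρs⟩ := hs
    refine ⟨min ρ r, lt_min hρ hr, ?_⟩
    intro F hF hFd hFu a b c hbc hcon
    have hFρ : dist F O < ρ := lt_of_lt_of_le hFd (min_le_left _ _)
    have hFr : dist F O < r := lt_of_lt_of_le hFd (min_le_right _ _)
    refine ⟨cx a b c F, cy a b c F, rep hbc F, ?_⟩
    by_contra hcontra
    have h1 : 0 ≤ qq a b c F := by unfold qq; linarith
    have h2 : qq a b c F ≠ 0 := by
      intro hq
      have h3 : F ∈ M ∩ Par a b c := ⟨hF, (par_iff hbc F).2 hq⟩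
      rw [← hcon] at h3
      have h4 := h3.2
      rw [H.self hF] at h4
      have := hL_pos H hO hF (not_mem_Ln hFu)
      linarith
    have h5 := hρs F ⟨hF, hFu, hFr, a, b, c, hbc, hcon, lt_of_le_of_ne h1 h2.symm⟩
    rw [dist_comm] at h5
    linarith

end Pool.Agent.W29.PM
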